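import Mathlib

/-!
Holomorphic maps from complex tori to projective varieties: maps built from doubly periodic
functions.
-/

set_option autoImplicit false

namespace Pool.Agent.TH182.TC

open MvPolynomial Filter Topology Set
open scoped LinearAlgebra.Projectivization PeriodPair

variable {N : ℕ} {ι : Type}

/-- Complex projective space of dimension `N`. -/
abbrev PS (N : ℕ) := ℙ ℂ (Fin (N + 1) → ℂ)

/-- The point `p` lies on the projective variety `F = 0`. -/
def OnX (F : ι → MvPolynomial (Fin (N + 1)) ℂ) (p : PS N) : Prop :=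
  ∀ i, eval p.rep (F i) = 0

/-- The map `g` into projective space is holomorphic near `z`: near `z` it is given by homogeneous
coordinates which are holomorphic and have no common zero. -/
def HoloAt {E : Type} [NormedAddCommGroup E] [NormedSpace ℂ E] (g : E → PS N) (z : E) : Prop :=
  ∃ φ : E → Fin (N + 1) → ℂ, AnalyticAt ℂ φ z ∧
    ∀ᶠ w in 𝓝 z, ∃ h : φ w ≠ 0, g w = Projectivization.mk ℂ (φ w) h

/-- The map `g` into projective space is holomorphic. -/
def Holo {E : Type} [NormedAddCommGroup E] [NormedSpace ℂ E] (g : E → PS N) : Prop :=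
  ∀ z, HoloAt g z

/-- Every holomorphic map from a complex torus `ℂⁿ / Λ` to `X = {F = 0}` is constant. The lattice
`Λ` is generated by a basis `b` of the real vector space `ℂⁿ`. -/
def TorusRigid (F : ι → MvPolynomial (Fin (N + 1)) ℂ) : Prop :=
  ∀ (n : ℕ) (b : Module.Basis (Fin (2 * n)) ℝ (Fin n → ℂ)) (g : (Fin n → ℂ) → PS N),
    Holo g → (∀ z, OnX F (g z)) → (∀ z i, g (z + b i) = g z) → ∀ z w, g z = g w

/-- Every holomorphic map from a one-dimensional complex torus `ℂ / (ℤ w1 + ℤ w2)` to
`X = {F = 0}` is constant. -/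
def EllipticRigid (F : ι → MvPolynomial (Fin (N + 1)) ℂ) : Prop :=
  ∀ (w1 w2 : ℂ), LinearIndependent ℝ ![w1, w2] → ∀ g : ℂ → PS N, Holo g → (∀ z, OnX F (g z)) →
    (∀ z, g (z + w1) = g z) → (∀ z, g (z + w2) = g z) → ∀ z w, g z = g w

theorem eval_smul_of_homog {F : MvPolynomial (Fin (N + 1)) ℂ} {d : ℕ} (hF : F.IsHomogeneous d)
    (c : ℂ) (v : Fin (N + 1) → ℂ) : eval (c • v) F = c ^ d * eval v F := by
  simp only [MvPolynomial.eval_eq, Pi.smul_apply, smul_eq_mul]
  rw [Finset.mul_sum]
  refine Finset.sum_congr rfl fun s hs => ?_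
  have hd : ∑ i, s i = d := by
    have := hF (mem_support_iff.mp hs)
    rw [← this, Finsupp.weight_apply, Finsupp.sum_fintype _ _ (fun _ => by simp)]
    simp
  simp only [mul_pow]
  rw [Finset.prod_mul_distrib]
  have h1 : ∏ i ∈ s.support, c ^ s i = c ^ d := by
    rw [Finset.prod_pow_eq_pow_sum]
    congr 1
    rw [← hd]
    exact Finset.sum_subset (Finset.subset_univ _) (fun i _ hi => by simpa using hi)
  rw [h1]
  ring

theorem onX_mk {F : ι → MvPolynomial (Fin (N + 1)) ℂ} (hF : ∀ i, ∃ d, (F i).IsHomogeneous d)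
    {v : Fin (N + 1) → ℂ} (hv : v ≠ 0) :
    OnX F (Projectivization.mk ℂ v hv) ↔ ∀ i, eval v (F i) = 0 := by
  obtain ⟨a, ha⟩ := Projectivization.exists_smul_eq_mk_rep ℂ v hv
  have ha' : (Projectivization.mk ℂ v hv).rep = (a : ℂ) • v := ha.symm
  unfold OnX
  refine forall_congr' fun i => ?_
  obtain ⟨d, hd⟩ := hF i
  rw [ha', eval_smul_of_homog hd]
  constructor
  · intro h
    exact (mul_eq_zero.mp h).resolve_left (pow_ne_zero _ a.ne_zero)
  · intro h
    rw [h, mul_zero]

/-- two vectors give the same point if and only if all minors vanish -/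
theorem mk_eq_mk_iff_minors {v w : Fin (N + 1) → ℂ} (hv : v ≠ 0) (hw : w ≠ 0) :
    Projectivization.mk ℂ v hv = Projectivization.mk ℂ w hw ↔
      ∀ j k, v j * w k = v k * w j := by
  rw [Projectivization.mk_eq_mk_iff']
  constructor
  · rintro ⟨a, ha⟩ j k
    rw [← ha]
    simp only [Pi.smul_apply, smul_eq_mul]
    ring
  · intro h
    obtain ⟨l, hl⟩ := Function.ne_iff.mp hw
    have hl' : w l ≠ 0 := hl
    refine ⟨v l / w l, funext fun j => ?_⟩
    rw [Pi.smul_apply, smul_eq_mul]
    have := h j l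
    field_simp
    linear_combination -this

/-- A doubly periodic curve in a torus rigid variety is constant. -/
theorem TorusRigid.elliptic {F : ι → MvPolynomial (Fin (N + 1)) ℂ} (hX : TorusRigid F) :
    EllipticRigid F := by
  intro w1 w2 hw f hf hfX h1 h2
  let L : PeriodPair := ⟨w1, w2, hw⟩
  let e : ℂ ≃ₗ[ℝ] (Fin 1 → ℂ) := (LinearEquiv.funUnique (Fin 1) ℝ ℂ).symm
  let b : Module.Basis (Fin (2 * 1)) ℝ (Fin 1 → ℂ) := L.basis.map e
  have hb : ∀ i, (b i) 0 = ![w1, w2] i := by
    intro i
    have h3 : b i = e (L.basis i) := Module.Basis.map_apply _ _ _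
    rw [h3]
    have h4 : ∀ x, e x 0 = x := fun x => rfl
    rw [h4]
    fin_cases i
    · exact L.basis_zero
    · exact L.basis_one
  have key := hX 1 b (fun z => f (z 0)) (by
    intro z
    obtain ⟨φ, hφ, hev⟩ := hf (z 0)
    refine ⟨fun x => φ (x 0), ?_, ?_⟩
    · have h5 : AnalyticAt ℂ (fun x : Fin 1 → ℂ => x 0) z :=
        (ContinuousLinearMap.proj (R := ℂ) (φ := fun _ : Fin 1 => ℂ) 0).analyticAt z
      exact AnalyticAt.fun_comp (g := φ) (f := fun x : Fin 1 → ℂ => x 0) (x := z) hφ h5
    · have h5 : Tendsto (fun x : Fin 1 → ℂ => x 0) (𝓝 z) (𝓝 (z 0)) :=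
        (continuous_apply 0).tendsto z
      exact h5.eventually hev)
    (fun z => hfX _) (by
      intro z i
      rw [Pi.add_apply, hb]
      fin_cases i
      · exact h1 _
      · exact h2 _)
  intro z w
  exact key (fun _ => z) (fun _ => w)

/-- homogenisation of a polynomial -/
noncomputable def hom (d : ℕ) (p : Polynomial ℂ) (s t : ℂ) : ℂ :=
  ∑ i ∈ Finset.range (d + 1), p.coeff i * t ^ i * s ^ (d - i)

theorem hom_eval {d : ℕ} {p : Polynomial ℂ} (hp : p.natDegree ≤ d) {s : ℂ} (hs : s ≠ 0) (t : ℂ) :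
    hom d p s t = s ^ d * p.eval (t / s) := by
  rw [hom, Polynomial.eval_eq_sum_range' (Nat.lt_succ_of_le hp), Finset.mul_sum]
  refine Finset.sum_congr rfl fun i hi => ?_
  have hi' : i ≤ d := Nat.lt_succ_iff.mp (Finset.mem_range.mp hi)
  have h1 : s ^ d = s ^ (d - i) * s ^ i := by rw [← pow_add, Nat.sub_add_cancel hi']
  rw [h1, div_pow]
  field_simp

theorem hom_zero (d : ℕ) (p : Polynomial ℂ) (t : ℂ) : hom d p 0 t = p.coeff d * t ^ d := by
  rw [hom, Finset.sum_eq_single d]
  · simp
  · intro i hi hid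
    have : d - i ≠ 0 := by
      have := Finset.mem_range.mp hi
      omega
    rw [zero_pow this, mul_zero]
  · intro h
    exact absurd (Finset.mem_range.mpr (Nat.lt_succ_self d)) h

/-- the values of the Weierstrass function are infinite in number -/
theorem infinite_range (L : PeriodPair) : (℘[L] '' (L.lattice : Set ℂ)ᶜ).Infinite := by
  intro hfin
  obtain ⟨M, hM⟩ := (hfin.isBounded).exists_norm_le
  have h0 : (0 : ℂ) ∈ L.lattice := L.lattice.zero_mem
  have hev : ∀ᶠ z in 𝓝[≠] (0 : ℂ), z ∉ L.lattice := by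
    have h1 := L.compl_lattice_sdiff_singleton_mem_nhds 0
    filter_upwards [mem_nhdsWithin_of_mem_nhds h1, self_mem_nhdsWithin] with z hz hz0
    intro hzL
    exact hz ⟨hzL, hz0⟩
  have hord := L.order_weierstrassP 0 h0
  have h2 : Tendsto ℘[L] (𝓝[≠] (0 : ℂ)) (Bornology.cobounded ℂ) := by
    apply tendsto_cobounded_of_meromorphicOrderAt_neg
    rw [hord]
    decide
  have h3 := (tendsto_norm_atTop_iff_cobounded.mpr h2).eventually_gt_atTop M
  obtain ⟨z, hz1, hz2⟩ := (h3.and hev).exists
  exact absurd (hM _ ⟨z, hz2, rfl⟩) (not_le.mpr hz1)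

/-- A projective variety without nonconstant maps from elliptic curves contains no rational
curve. -/
theorem no_rational {F : ι → MvPolynomial (Fin (N + 1)) ℂ} (hF : ∀ i, ∃ d, (F i).IsHomogeneous d)
    (hX : EllipticRigid F) (P : Fin (N + 1) → Polynomial ℂ) (hP : ∀ t, ∃ j, (P j).eval t ≠ 0)
    (hPF : ∀ t i, eval (fun j => (P j).eval t) (F i) = 0) (s t : ℂ) (j k : Fin (N + 1)) :
    (P j).eval s * (P k).eval t = (P k).eval s * (P j).eval t := by
  classical
  let L : PeriodPair := ⟨1, Complex.I, by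
    have := Complex.basisOneI.linearIndependent
    rwa [Complex.coe_basisOneI] at this⟩
  set d := Finset.univ.sup fun j => (P j).natDegree with hd
  have hdj : ∀ j, (P j).natDegree ≤ d := fun j => Finset.le_sup (f := fun j => (P j).natDegree) (Finset.mem_univ j)
  let H : ℂ → ℂ → Fin (N + 1) → ℂ := fun s t j => hom d (P j) s t
  have hH : ∀ s t, s ≠ 0 → H s t = s ^ d • fun j => (P j).eval (t / s) := by
    intro s t hs
    funext j
    exact hom_eval (hdj j) hs t
  have hHne : ∀ s t, s ≠ 0 → H s t ≠ 0 := by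
    intro s t hs h0
    obtain ⟨j, hj⟩ := hP (t / s)
    have h1 := congrFun h0 j
    rw [hH s t hs] at h1
    exact (mul_ne_zero (pow_ne_zero d hs) hj) h1
  -- some coefficient of degree d is nonzero
  have hlead : ∃ j, (P j).coeff d ≠ 0 := by
    obtain ⟨j, -, hj⟩ := Finset.exists_mem_eq_sup (Finset.univ : Finset (Fin (N + 1)))
      Finset.univ_nonempty (fun j => (P j).natDegree)
    rw [← hd] at hj
    by_cases hd0 : d = 0
    · obtain ⟨l, hl⟩ := hP 0
      refine ⟨l, ?_⟩
      have h1 : (P l).natDegree = 0 := Nat.le_zero.mp (hd0 ▸ hdj l)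
      rw [hd0]
      rw [Polynomial.eq_C_of_natDegree_eq_zero h1, Polynomial.eval_C] at hl
      exact hl
    · refine ⟨j, ?_⟩
      rw [hj]
      intro h
      rw [Polynomial.coeff_natDegree, Polynomial.leadingCoeff_eq_zero] at h
      rw [h, Polynomial.natDegree_zero] at hj
      exact hd0 hj
  have hH0 : ∀ t, t ≠ 0 → H 0 t ≠ 0 := by
    intro t ht h0
    obtain ⟨j, hj⟩ := hlead
    have h1 := congrFun h0 j
    change hom d (P j) 0 t = 0 at h1
    rw [hom_zero] at h1
    exact (mul_ne_zero hj (pow_ne_zero d ht)) h1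
  have hcont : ∀ t, Continuous fun s => H s t := by
    intro t
    refine continuous_pi fun j => ?_
    change Continuous fun s => ∑ i ∈ Finset.range (d + 1), (P j).coeff i * t ^ i * s ^ (d - i)
    fun_prop
  have hHF : ∀ s t i, eval (H s t) (F i) = 0 := by
    intro s t i
    obtain ⟨e, he⟩ := hF i
    have h1 : ∀ s, s ≠ 0 → eval (H s t) (F i) = 0 := by
      intro s hs
      rw [hH s t hs, eval_smul_of_homog he, hPF, mul_zero]
    have h2 : Continuous fun s => eval (H s t) (F i) :=
      (MvPolynomial.continuous_eval (F i)).comp (hcont t)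
    have h3 : (fun s => eval (H s t) (F i)) = fun _ => 0 :=
      h2.ext_on (dense_compl_singleton (0 : ℂ)) continuous_const (fun s hs => h1 s hs)
    exact congrFun h3 s
  -- the map
  let v : ℂ → Fin (N + 1) → ℂ := fun z => if z ∈ L.lattice then H 0 1 else H 1 (℘[L] z)
  have hv : ∀ z, v z ≠ 0 := by
    intro z
    simp only [v]
    split_ifs
    · exact hH0 1 one_ne_zero
    · exact hHne _ _ one_ne_zero
  let g : ℂ → PS N := fun z => Projectivization.mk ℂ (v z) (hv z)
  have hgX : ∀ z, OnX F (g z) := by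
    intro z
    rw [onX_mk hF]
    intro i
    simp only [v]
    split_ifs <;> exact hHF _ _ _
  have hHan : ∀ (a b : ℂ → ℂ) (z : ℂ), AnalyticAt ℂ a z → AnalyticAt ℂ b z →
      AnalyticAt ℂ (fun w => H (a w) (b w)) z := by
    intro a b z ha hb
    rw [analyticAt_pi_iff]
    intro j
    change AnalyticAt ℂ (fun w => ∑ i ∈ Finset.range (d + 1),
      (P j).coeff i * b w ^ i * a w ^ (d - i)) z
    apply Finset.analyticAt_fun_sum
    intro i _
    exact (analyticAt_const.fun_mul (hb.fun_pow i)).fun_mul (ha.fun_pow _)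
  have hgh : Holo g := by
    intro z
    by_cases hz : z ∈ L.lattice
    · let a : ℂ → ℂ := fun w => (w - z) ^ 2
      let c : ℂ → ℂ := fun w => (w - z) ^ 2 * ℘[L - z] w + 1 - (w - z) ^ 2 / z ^ 2
      have ha : AnalyticAt ℂ a z := by
        change AnalyticAt ℂ (fun w => (w - z) ^ 2) z
        fun_prop
      have hc : AnalyticAt ℂ c z := by
        have h1 : AnalyticAt ℂ ℘[L - z] z := L.analyticAt_weierstrassPExcept z
        have h2 : AnalyticAt ℂ (fun w : ℂ => (w - z) ^ 2 / z ^ 2) z := by
          have : AnalyticAt ℂ (fun w : ℂ => (w - z) ^ 2 * (z ^ 2)⁻¹) z := by fun_prop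
          simpa only [div_eq_mul_inv] using this
        change AnalyticAt ℂ (fun w => (w - z) ^ 2 * ℘[L - z] w + 1 - (w - z) ^ 2 / z ^ 2) z
        fun_prop
      refine ⟨fun w => H (a w) (c w), hHan a c z ha hc, ?_⟩
      filter_upwards [L.compl_lattice_sdiff_singleton_mem_nhds z] with w hw
      by_cases hwz : w = z
      · subst hwz
        have h1 : a w = 0 := by simp [a]
        have h2 : c w = 1 := by simp [c]
        have h3 : H (a w) (c w) = v w := by
          rw [h1, h2]
          simp only [v, if_pos hz]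
        refine ⟨by rw [h3]; exact hv w, ?_⟩
        simp only [g, h3]
      · have hwL : w ∉ L.lattice := fun h => hw ⟨h, hwz⟩
        have h1 : a w ≠ 0 := pow_ne_zero 2 (sub_ne_zero.mpr hwz)
        have h2 : c w = a w * ℘[L] w := by
          have := L.ite_eq_one_sub_sq_mul_weierstrassP z hz w
          rw [if_neg hwz] at this
          exact this.symm
        have h3 : H (a w) (c w) ≠ 0 := hHne _ _ h1
        refine ⟨h3, ?_⟩
        simp only [g]
        rw [Projectivization.mk_eq_mk_iff']
        refine ⟨(a w ^ d)⁻¹, ?_⟩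
        simp only [v, if_neg hwL]
        rw [hH _ _ h1, hH _ _ one_ne_zero, h2, smul_smul, inv_mul_cancel₀ (pow_ne_zero d h1),
          one_pow, div_one, mul_div_cancel_left₀ _ h1]
    · refine ⟨fun w => H 1 (℘[L] w), hHan _ _ z analyticAt_const
        (L.analyticOnNhd_weierstrassP z hz), ?_⟩
      have hopen : ((L.lattice : Set ℂ)ᶜ) ∈ 𝓝 z := L.isClosed_lattice.isOpen_compl.mem_nhds hz
      filter_upwards [hopen] with w hw
      have h3 : v w = H 1 (℘[L] w) := if_neg hw
      refine ⟨hHne _ _ one_ne_zero, ?_⟩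
      simp only [g, h3]
  have hper : ∀ l ∈ L.lattice, ∀ z, g (z + l) = g z := by
    intro l hl z
    have h1 : v (z + l) = v z := by
      simp only [v]
      have h2 : z + l ∈ L.lattice ↔ z ∈ L.lattice := by
        constructor
        · intro h
          have := L.lattice.sub_mem h hl
          rwa [add_sub_cancel_right] at this
        · intro h
          exact L.lattice.add_mem h hl
      simp only [h2]
      rw [L.weierstrassP_add_coe z ⟨l, hl⟩]
    simp only [g, h1]
  have hconst := hX _ _ L.indep g hgh hgX (hper _ L.ω₁_mem_lattice)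
    (hper _ L.ω₂_mem_lattice)
  -- all values of P on the values of the Weierstrass function are proportional
  set S : Set ℂ := ℘[L] '' (L.lattice : Set ℂ)ᶜ with hS
  have hSinf : S.Infinite := infinite_range L
  have hSP : ∀ a ∈ S, ∀ b ∈ S, ∀ j k, (P j).eval a * (P k).eval b = (P k).eval a * (P j).eval b := by
    rintro _ ⟨z, hz, rfl⟩ _ ⟨w, hw, rfl⟩ j k
    have h1 := hconst z w
    simp only [g] at h1
    rw [mk_eq_mk_iff_minors] at h1
    have h2 := h1 j k
    have h3 : ∀ z, z ∈ (L.lattice : Set ℂ)ᶜ → ∀ j, v z j = (P j).eval (℘[L] z) := by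
      intro z hz j
      have h4 : v z = H 1 (℘[L] z) := if_neg hz
      rw [h4, hH _ _ one_ne_zero, Pi.smul_apply, one_pow, one_smul, div_one]
    rw [h3 z hz, h3 z hz, h3 w hw, h3 w hw] at h2
    exact h2
  have hpoly : ∀ a ∈ S, Polynomial.C ((P j).eval a) * P k = Polynomial.C ((P k).eval a) * P j := by
    intro a ha
    apply Polynomial.eq_of_infinite_eval_eq
    refine hSinf.mono fun b hb => ?_
    simp only [Set.mem_ofPred_eq, Polynomial.eval_mul, Polynomial.eval_C]
    exact hSP a ha b hb j k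
  have h5 : Polynomial.C ((P k).eval t) * P j = Polynomial.C ((P j).eval t) * P k := by
    apply Polynomial.eq_of_infinite_eval_eq
    refine hSinf.mono fun a ha => ?_
    simp only [Set.mem_ofPred_eq, Polynomial.eval_mul, Polynomial.eval_C]
    have := congrArg (Polynomial.eval t) (hpoly a ha)
    simp only [Polynomial.eval_mul, Polynomial.eval_C] at this
    linear_combination this
  have h6 := congrArg (Polynomial.eval s) h5
  simp only [Polynomial.eval_mul, Polynomial.eval_C] at h6
  linear_combination h6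

end Pool.Agent.TH182.TC
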