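import Mathlib
import Pool.Agent.TH182.TC.Core
import Pool.Agent.TH143.Fin

/-!
Curves which are algebraic over the polynomials, and over periodic functions.
-/

set_option autoImplicit false

namespace Pool.Agent.TH182.TC

open MvPolynomial Filter Topology Set
open scoped LinearAlgebra.Projectivization

variable {N : ℕ} {ι : Type}

/-- ratio of homogeneous coordinates -/
noncomputable def ratio (f : ℂ → PS N) (j k : Fin (N + 1)) (z : ℂ) : ℂ :=
  (f z).rep j / (f z).rep k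

theorem rep_mk {v : Fin (N + 1) → ℂ} (hv : v ≠ 0) :
    ∃ a : ℂ, a ≠ 0 ∧ (Projectivization.mk ℂ v hv).rep = a • v := by
  obtain ⟨a, ha⟩ := Projectivization.exists_smul_eq_mk_rep ℂ v hv
  exact ⟨a, a.ne_zero, ha.symm⟩

theorem ratio_mk {f : ℂ → PS N} {z : ℂ} {v : Fin (N + 1) → ℂ} (hv : v ≠ 0)
    (h : f z = Projectivization.mk ℂ v hv) (j k : Fin (N + 1)) :
    ratio f j k z = v j / v k ∧ ((f z).rep k = 0 ↔ v k = 0) := by
  obtain ⟨a, ha, hr⟩ := rep_mk hv
  unfold ratio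
  rw [h, hr]
  simp only [Pi.smul_apply, smul_eq_mul]
  refine ⟨mul_div_mul_left _ _ ha, ?_⟩
  simp [ha]

theorem HoloAt.mero {f : ℂ → PS N} {z : ℂ} (hf : HoloAt f z) (j k : Fin (N + 1)) :
    MeromorphicAt (ratio f j k) z := by
  obtain ⟨φ, hφ, hev⟩ := hf
  rw [analyticAt_pi_iff] at hφ
  refine ((hφ j).meromorphicAt.fun_div (hφ k).meromorphicAt).congr ?_
  refine Filter.EventuallyEq.filter_mono ?_ nhdsWithin_le_nhds
  filter_upwards [hev] with w hw
  obtain ⟨hv, hw⟩ := hw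
  exact (ratio_mk hv hw j k).1.symm

theorem HoloAt.dich {f : ℂ → PS N} {z : ℂ} (hf : HoloAt f z) (k : Fin (N + 1)) :
    (∀ᶠ w in 𝓝 z, (f w).rep k = 0) ∨ (∀ᶠ w in 𝓝[≠] z, (f w).rep k ≠ 0) := by
  obtain ⟨φ, hφ, hev⟩ := hf
  rw [analyticAt_pi_iff] at hφ
  rcases (hφ k).eventually_eq_zero_or_eventually_ne_zero with h | h
  · left
    filter_upwards [h, hev] with w hw hw2
    obtain ⟨hv, hw2⟩ := hw2
    exact (ratio_mk hv hw2 k k).2.mpr hw
  · right
    filter_upwards [h, mem_nhdsWithin_of_mem_nhds hev] with w hw hw2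
    obtain ⟨hv, hw2⟩ := hw2
    exact fun h0 => hw ((ratio_mk hv hw2 k k).2.mp h0)

/-- a coordinate not vanishing identically vanishes on a discrete set -/
theorem Holo.ne_zero {f : ℂ → PS N} (hf : Holo f) {k : Fin (N + 1)} {z0 : ℂ}
    (h0 : (f z0).rep k ≠ 0) : ∀ z, ∀ᶠ w in 𝓝[≠] z, (f w).rep k ≠ 0 := by
  set A := {z | ∀ᶠ w in 𝓝[≠] z, (f w).rep k ≠ 0} with hA
  have hz0 : z0 ∈ A := by
    rcases (hf z0).dich k with h | h
    · exact absurd h.self_of_nhds h0
    · exact h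
  have hAo : IsOpen A := by
    rw [isOpen_iff_mem_nhds]
    intro z hz
    have h1 : ∀ᶠ w in 𝓝[≠] z, ∀ᶠ x in 𝓝 w, (f x).rep k ≠ 0 :=
      eventually_nhdsNE_eventually_nhds_iff.mpr hz
    have h2 := eventually_nhdsWithin_iff.mp h1
    filter_upwards [h2] with w hw
    by_cases hwz : w = z
    · rw [hwz]; exact hz
    · exact (hw hwz).filter_mono nhdsWithin_le_nhds
  have hAc : Aᶜ = {z | ∀ᶠ w in 𝓝 z, (f w).rep k = 0} := by
    ext z
    constructor
    · intro hz
      rcases (hf z).dich k with h | h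
      · exact h
      · exact absurd h hz
    · intro hz hz'
      obtain ⟨w, hw, hw'⟩ := ((show ∀ᶠ w in 𝓝[≠] z, (f w).rep k ≠ 0 from hz').and
        ((show ∀ᶠ w in 𝓝 z, (f w).rep k = 0 from hz).filter_mono nhdsWithin_le_nhds)).exists
      exact hw hw'
  have hAcl : IsClosed A := by
    rw [← isOpen_compl_iff, hAc, isOpen_iff_mem_nhds]
    intro z hz
    exact eventually_eventually_nhds.mpr hz
  have huniv : A = univ := by
    rcases isClopen_iff.mp ⟨hAcl, hAo⟩ with h | h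
    · rw [h] at hz0
      exact absurd hz0 (notMem_empty _)
    · exact h
  intro z
  have : z ∈ A := by rw [huniv]; exact mem_univ z
  exact this

/-- two holomorphic maps which agree near a point agree there -/
theorem HoloAt.eq_of_eventually {f g : ℂ → PS N} {z : ℂ} (hf : HoloAt f z) (hg : HoloAt g z)
    (h : ∀ᶠ w in 𝓝[≠] z, f w = g w) : f z = g z := by
  obtain ⟨φ, hφ, hev⟩ := hf
  obtain ⟨ψ, hψ, hev'⟩ := hg
  obtain ⟨h1, h1'⟩ := hev.self_of_nhds
  obtain ⟨h2, h2'⟩ := hev'.self_of_nhds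
  rw [h1', h2', mk_eq_mk_iff_minors]
  intro j k
  have hc : ∀ (χ : ℂ → Fin (N + 1) → ℂ), AnalyticAt ℂ χ z → ∀ j, ContinuousAt (fun w => χ w j) z :=
    fun χ hχ j => ((analyticAt_pi_iff.mp hχ) j).continuousAt
  have hc1 : ContinuousAt (fun w => φ w j * ψ w k - φ w k * ψ w j) z :=
    (((hc φ hφ j).mul (hc ψ hψ k)).sub ((hc φ hφ k).mul (hc ψ hψ j)))
  have hz : ∀ᶠ w in 𝓝[≠] z, φ w j * ψ w k - φ w k * ψ w j = 0 := by
    filter_upwards [h, mem_nhdsWithin_of_mem_nhds hev, mem_nhdsWithin_of_mem_nhds hev'] with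
      w hw hw1 hw2
    obtain ⟨h3, h3'⟩ := hw1
    obtain ⟨h4, h4'⟩ := hw2
    rw [h3', h4', mk_eq_mk_iff_minors] at hw
    rw [hw j k, sub_self]
  have h5 : Tendsto (fun w => φ w j * ψ w k - φ w k * ψ w j) (𝓝[≠] z)
      (𝓝 (φ z j * ψ z k - φ z k * ψ z j)) := hc1.tendsto.mono_left nhdsWithin_le_nhds
  have h6 : Tendsto (fun w => φ w j * ψ w k - φ w k * ψ w j) (𝓝[≠] z) (𝓝 0) :=
    (tendsto_congr' hz).mpr tendsto_const_nhds
  have h7 := tendsto_nhds_unique h5 h6
  linear_combination h7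

theorem HoloAt.comp {f : ℂ → PS N} {a : ℂ → ℂ} {z : ℂ} (hf : HoloAt f (a z))
    (ha : AnalyticAt ℂ a z) : HoloAt (fun w => f (a w)) z := by
  obtain ⟨φ, hφ, hev⟩ := hf
  exact ⟨fun w => φ (a w), AnalyticAt.fun_comp (g := φ) hφ ha, ha.continuousAt.eventually hev⟩

theorem HoloAt.congr {f g : ℂ → PS N} {z : ℂ} (hf : HoloAt f z) (h : ∀ᶠ w in 𝓝 z, f w = g w) :
    HoloAt g z := by
  obtain ⟨φ, hφ, hev⟩ := hf
  refine ⟨φ, hφ, ?_⟩
  filter_upwards [hev, h] with w hw hw'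
  rw [← hw']
  exact hw

/-- if two points have the same ratios of coordinates they are equal -/
theorem eq_of_ratio {p q : PS N} {k : Fin (N + 1)} (hp : p.rep k ≠ 0) (hq : q.rep k ≠ 0)
    (h : ∀ j, p.rep j / p.rep k = q.rep j / q.rep k) : p = q := by
  rw [← p.mk_rep, ← q.mk_rep, mk_eq_mk_iff_minors]
  intro j l
  have h1 := h j
  have h2 := h l
  rw [div_eq_div_iff hp hq] at h1 h2
  have h3 : p.rep k * q.rep k ≠ 0 := mul_ne_zero hp hq
  apply mul_left_cancel₀ h3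
  linear_combination q.rep l * p.rep k * h1 - p.rep k * q.rep j * h2

theorem poly_bound (p : Polynomial ℂ) : ∃ (C : ℝ) (K : ℕ), 0 ≤ C ∧
    ∀ z : ℂ, ‖p.eval z‖ ≤ C * (1 + ‖z‖) ^ K := by
  refine ⟨∑ i ∈ Finset.range (p.natDegree + 1), ‖p.coeff i‖, p.natDegree,
    Finset.sum_nonneg fun _ _ => norm_nonneg _, fun z => ?_⟩
  rw [Polynomial.eval_eq_sum_range, Finset.sum_mul]
  refine (norm_sum_le _ _).trans (Finset.sum_le_sum fun i hi => ?_)
  rw [norm_mul, norm_pow]
  have h1 : i ≤ p.natDegree := Nat.lt_succ_iff.mp (Finset.mem_range.mp hi)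
  have h2 : ‖z‖ ^ i ≤ (1 + ‖z‖) ^ p.natDegree := by
    calc ‖z‖ ^ i ≤ (1 + ‖z‖) ^ i := by gcongr; linarith [norm_nonneg z]
      _ ≤ (1 + ‖z‖) ^ p.natDegree :=
        pow_le_pow_right₀ (by linarith [norm_nonneg z]) h1
  gcongr

/-- A function which is meromorphic outside the origin and algebraic over the polynomials is
rational. -/
theorem rat_of_alg (G : ℂ → ℂ) (hG : ∀ w, w ≠ 0 → MeromorphicAt G w) (m : ℕ)
    (c : ℕ → Polynomial ℂ) (hc : ∃ k ≤ m, c k ≠ 0)
    (hrel : ∀ w, w ≠ 0 → ∀ᶠ z in 𝓝[≠] w,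
      ∑ k ∈ Finset.range (m + 1), (c k).eval z * G z ^ k = 0) :
    ∃ p q : Polynomial ℂ, q ≠ 0 ∧ ∀ w, w ≠ 0 → ∀ᶠ z in 𝓝[≠] w, q.eval z * G z = p.eval z := by
  classical
  let T := (Finset.range (m + 1)).filter fun k => c k ≠ 0
  have hT : T.Nonempty := by
    obtain ⟨k, hk, hck⟩ := hc
    exact ⟨k, Finset.mem_filter.mpr ⟨Finset.mem_range.mpr (Nat.lt_succ_of_le hk), hck⟩⟩
  set l := T.max' hT with hl
  have hlT : l ∈ T := T.max'_mem hT
  have hlm : l < m + 1 := Finset.mem_range.mp (Finset.mem_filter.mp hlT).1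
  have hcl : c l ≠ 0 := (Finset.mem_filter.mp hlT).2
  have hbig : ∀ k ∈ Finset.range (m + 1), k ∉ Finset.range (l + 1) → c k = 0 := by
    intro k hk hkl
    by_contra hcon
    have := T.le_max' k (Finset.mem_filter.mpr ⟨hk, hcon⟩)
    rw [Finset.mem_range] at hkl
    omega
  have hrel' : ∀ w, w ≠ 0 → ∀ᶠ z in 𝓝[≠] w,
      (c l).eval z * G z ^ l = -∑ k ∈ Finset.range l, (c k).eval z * G z ^ k := by
    intro w hw
    filter_upwards [hrel w hw] with z hz
    have hsub : Finset.range (l + 1) ⊆ Finset.range (m + 1) := by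
      intro k hk
      rw [Finset.mem_range] at hk ⊢
      omega
    rw [← Finset.sum_subset hsub (by
      intro k hk hk'
      rw [hbig k hk hk']
      simp), Finset.sum_range_succ] at hz
    linear_combination hz
  -- the degree is positive
  have hl0 : 0 < l := by
    rcases Nat.eq_zero_or_pos l with h0 | h0
    · exfalso
      have h1 := hrel' 1 one_ne_zero
      have h2 : ∀ᶠ z in 𝓝[≠] (1 : ℂ), (c l).eval z = 0 := by
        filter_upwards [h1] with z hz
        rw [h0] at hz ⊢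
        simpa using hz
      apply hcl
      apply Polynomial.eq_zero_of_infinite_isRoot
      have h3 : {z : ℂ | (c l).eval z = 0} ∈ 𝓝[≠] (1 : ℂ) := h2
      intro hfin
      exact infinite_of_mem_nhds (1 : ℂ) (insert_mem_nhds_iff.mpr h3) (hfin.insert 1)
    · exact h0
  obtain ⟨C, K, hC, hCK⟩ : ∃ (C : ℝ) (K : ℕ), 0 ≤ C ∧ ∀ z : ℂ,
      1 + ∑ k ∈ Finset.range l, ‖(c k).eval z‖ * ‖(c l).eval z‖ ^ (l - 1 - k)
        ≤ C * (1 + ‖z‖) ^ K := by
    have h1 : ∀ T : Finset ℕ, ∃ (C : ℝ) (K : ℕ), 0 ≤ C ∧ ∀ z : ℂ,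
        ∑ k ∈ T, ‖(c k).eval z‖ * ‖(c l).eval z‖ ^ (l - 1 - k) ≤ C * (1 + ‖z‖) ^ K := by
      intro T
      induction T using Finset.induction_on with
      | empty => exact ⟨0, 0, le_rfl, fun z => by simp⟩
      | insert k T hk ih =>
        obtain ⟨C, K, hC, h⟩ := ih
        obtain ⟨C', K', hC', h'⟩ := poly_bound (c k * c l ^ (l - 1 - k))
        refine ⟨C + C', K + K', by positivity, fun z => ?_⟩
        rw [Finset.sum_insert hk]
        have h2 := h z
        have h3 := h' z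
        rw [Polynomial.eval_mul, Polynomial.eval_pow, norm_mul, norm_pow] at h3
        have h4 : (1 + ‖z‖) ^ K ≤ (1 + ‖z‖) ^ (K + K') :=
          pow_le_pow_right₀ (by linarith [norm_nonneg z]) (by omega)
        have h5 : (1 + ‖z‖) ^ K' ≤ (1 + ‖z‖) ^ (K + K') :=
          pow_le_pow_right₀ (by linarith [norm_nonneg z]) (by omega)
        nlinarith [mul_le_mul_of_nonneg_left h4 hC, mul_le_mul_of_nonneg_left h5 hC']
    obtain ⟨C, K, hC, h⟩ := h1 (Finset.range l)
    refine ⟨1 + C, K, by positivity, fun z => ?_⟩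
    have h2 : (1 : ℝ) ≤ (1 + ‖z‖) ^ K := one_le_pow₀ (by linarith [norm_nonneg z])
    have h3 := h z
    nlinarith
  set q := c l with hq
  let h : ℂ → ℂ := fun z => q.eval z * G z
  have hbd : ∀ w, w ≠ 0 → ∀ᶠ z in 𝓝[≠] w, ‖h z‖ ≤ C * (1 + ‖z‖) ^ K := by
    intro w hw
    filter_upwards [hrel' w hw] with z hz
    refine le_trans ?_ (hCK z)
    by_cases h1 : ‖h z‖ ≤ 1
    · refine h1.trans ?_
      have : 0 ≤ ∑ k ∈ Finset.range l, ‖(c k).eval z‖ * ‖q.eval z‖ ^ (l - 1 - k) :=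
        Finset.sum_nonneg fun _ _ => by positivity
      linarith
    push Not at h1
    have h2 : h z ^ l = -∑ k ∈ Finset.range l,
        (c k).eval z * q.eval z ^ (l - 1 - k) * h z ^ k := by
      have h3 : h z ^ l = q.eval z ^ (l - 1) * (q.eval z * G z ^ l) := by
        simp only [h, mul_pow]
        have : l = (l - 1) + 1 := by omega
        conv_lhs => rw [this]
        rw [pow_succ (q.eval z), ← this]
        ring
      rw [h3, hz, mul_neg, Finset.mul_sum]
      congr 1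
      refine Finset.sum_congr rfl fun k hk => ?_
      have hk' : k < l := Finset.mem_range.mp hk
      have h4 : l - 1 = (l - 1 - k) + k := by omega
      simp only [h, mul_pow]
      conv_lhs => rw [h4]
      rw [pow_add]
      ring
    have h5 : ‖h z‖ ^ l ≤ (∑ k ∈ Finset.range l, ‖(c k).eval z‖ * ‖q.eval z‖ ^ (l - 1 - k))
        * ‖h z‖ ^ (l - 1) := by
      rw [← norm_pow, h2, norm_neg, Finset.sum_mul]
      refine (norm_sum_le _ _).trans (Finset.sum_le_sum fun k hk => ?_)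
      have hk' : k < l := Finset.mem_range.mp hk
      rw [norm_mul, norm_mul, norm_pow, norm_pow]
      gcongr
      · exact h1.le
      · omega
    have h6 : ‖h z‖ ^ l = ‖h z‖ * ‖h z‖ ^ (l - 1) := by
      conv_lhs => rw [show l = (l - 1) + 1 by omega]
      rw [pow_succ]
      ring
    rw [h6] at h5
    have h7 : (0 : ℝ) < ‖h z‖ ^ (l - 1) := by positivity
    have h8 := le_of_mul_le_mul_right h5 h7
    linarith
  -- analytic normal form
  have hhm : MeromorphicOn h {(0 : ℂ)}ᶜ := by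
    intro w hw
    have h1 : AnalyticAt ℂ (fun z => q.eval z) w := by
      have := AnalyticAt.aeval_polynomial (A := ℂ) (analyticAt_id (𝕜 := ℂ) (z := w)) q
      simpa using this
    exact h1.meromorphicAt.fun_mul (hG w hw)
  set H := toMeromorphicNFOn h {(0 : ℂ)}ᶜ with hH
  have hHh : ∀ w, w ≠ 0 → ∀ᶠ z in 𝓝[≠] w, H z = h z := fun w hw =>
    hhm.toMeromorphicNFOn_eq_self_on_nhdsNE hw
  have hHan : ∀ w, w ≠ 0 → AnalyticAt ℂ H w := by
    intro w hw
    have h1 := meromorphicNFOn_toMeromorphicNFOn h {(0 : ℂ)}ᶜ (show w ∈ ({(0 : ℂ)}ᶜ : Set ℂ) from hw)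
    rw [← h1.meromorphicOrderAt_nonneg_iff_analyticAt]
    by_contra hcon
    push Not at hcon
    have h2 := tendsto_cobounded_of_meromorphicOrderAt_neg hcon
    have h3 := tendsto_norm_atTop_iff_cobounded.mpr h2
    have h4 : ∀ᶠ z in 𝓝[≠] w, C * (1 + ‖z‖) ^ K < C * (1 + ‖w‖) ^ K + 1 := by
      have h5 : ContinuousAt (fun z : ℂ => C * (1 + ‖z‖) ^ K) w := by fun_prop
      exact (h5.eventually_lt_const (lt_add_one _)).filter_mono nhdsWithin_le_nhds
    obtain ⟨z, h6, h7, h8, h9⟩ := ((h3.eventually_gt_atTop (C * (1 + ‖w‖) ^ K + 1)).and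
      ((hHh w hw).and ((hbd w hw).and h4))).exists
    rw [← hH] at h6
    rw [h7] at h6
    linarith
  have hHbd : ∀ w, w ≠ 0 → ‖H w‖ ≤ C * (1 + ‖w‖) ^ K := by
    intro w hw
    have h1 : Tendsto (fun z => ‖H z‖) (𝓝[≠] w) (𝓝 ‖H w‖) :=
      (hHan w hw).continuousAt.norm.tendsto.mono_left nhdsWithin_le_nhds
    have h2 : Tendsto (fun z : ℂ => C * (1 + ‖z‖) ^ K) (𝓝[≠] w) (𝓝 (C * (1 + ‖w‖) ^ K)) := by
      have h5 : ContinuousAt (fun z : ℂ => C * (1 + ‖z‖) ^ K) w := by fun_prop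
      exact h5.tendsto.mono_left nhdsWithin_le_nhds
    refine le_of_tendsto_of_tendsto h1 h2 ?_
    filter_upwards [hHh w hw, hbd w hw] with z hz hz'
    rw [hz]
    exact hz'
  set H2 := Function.update H 0 (limUnder (𝓝[≠] (0 : ℂ)) H) with hH2
  have hd : DifferentiableOn ℂ H2 (Metric.ball 0 1) := by
    apply Complex.differentiableOn_update_limUnder_of_bddAbove (Metric.ball_mem_nhds 0 one_pos)
    · intro z hz
      exact (hHan z hz.2).differentiableAt.differentiableWithinAt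
    · refine ⟨C * (1 + 1) ^ K, ?_⟩
      rintro _ ⟨z, hz, rfl⟩
      refine (hHbd z hz.2).trans ?_
      have h1 : ‖z‖ < 1 := by simpa using hz.1
      gcongr
  have hd2 : Differentiable ℂ H2 := by
    intro z
    by_cases hz : z = 0
    · rw [hz]
      exact hd.differentiableAt (Metric.ball_mem_nhds 0 one_pos)
    · refine (hHan z hz).differentiableAt.congr_of_eventuallyEq ?_
      filter_upwards [isOpen_ne.mem_nhds hz] with w hw
      exact Function.update_of_ne hw _ _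
  have hH2bd : ∀ z, ‖H2 z‖ ≤ C * (1 + ‖z‖) ^ K := by
    intro z
    by_cases hz : z = 0
    · rw [hz]
      have h1 : Tendsto (fun z => ‖H2 z‖) (𝓝[≠] 0) (𝓝 ‖H2 0‖) :=
        (hd2 0).continuousAt.norm.tendsto.mono_left nhdsWithin_le_nhds
      have h2 : Tendsto (fun z : ℂ => C * (1 + ‖z‖) ^ K) (𝓝[≠] 0)
          (𝓝 (C * (1 + ‖(0 : ℂ)‖) ^ K)) := by
        have h5 : ContinuousAt (fun z : ℂ => C * (1 + ‖z‖) ^ K) 0 := by fun_prop
        exact h5.tendsto.mono_left nhdsWithin_le_nhds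
      refine le_of_tendsto_of_tendsto h1 h2 ?_
      filter_upwards [self_mem_nhdsWithin] with w hw
      have h3 : H2 w = H w := Function.update_of_ne hw _ _
      rw [h3]
      exact hHbd w hw
    · have h3 : H2 z = H z := Function.update_of_ne hz _ _
      rw [h3]
      exact hHbd z hz
  obtain ⟨p, hp⟩ := Pool.Agent.TH143.poly_of_growth H2 hd2 C K hH2bd
  refine ⟨p, q, hcl, fun w hw => ?_⟩
  filter_upwards [hHh w hw, (isOpen_ne.mem_nhds hw : {z : ℂ | z ≠ 0} ∈ 𝓝 w) |>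
    mem_nhdsWithin_of_mem_nhds] with z hz hz0
  have h3 : H2 z = H z := Function.update_of_ne hz0 _ _
  rw [← hp, h3, hz]

end Pool.Agent.TH182.TC
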