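import Mathlib
import Pool.Agent.TH182.TC.Alg
import Pool.Agent.TH143.Gen

/-!
Holonomic curves over one-dimensional algebraic groups.
-/

set_option autoImplicit false

namespace Pool.Agent.TH182.TC

open MvPolynomial Filter Topology Set
open scoped LinearAlgebra.Projectivization
open Pool.Agent.TH143 Pool.Agent.W603.BP

variable {N : ℕ} {ι : Type}

/-- the variety `F = 0` contains no rational curve -/
def NoRat (F : ι → MvPolynomial (Fin (N + 1)) ℂ) : Prop :=
  ∀ P : Fin (N + 1) → Polynomial ℂ, (∀ t, ∃ j, (P j).eval t ≠ 0) →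
    (∀ t i, eval (fun j => (P j).eval t) (F i) = 0) →
    ∀ s t j k, (P j).eval s * (P k).eval t = (P k).eval s * (P j).eval t

theorem false_of_gm {F : ι → MvPolynomial (Fin (N + 1)) ℂ} (hno : NoRat F)
    {P : Fin (N + 1) → Polynomial ℂ} (hP : ∀ t, ∃ j, (P j).eval t ≠ 0) (hG : IsGmCurve F 1 P) :
    False := by
  obtain ⟨s, t, hs, ht, j, k, hst⟩ := hG.nonconst
  apply hst
  apply hno P hP
  have h1 : ∀ i t, eval (fun j => (P j).eval t) (F i) = (aeval P (F i) : Polynomial ℂ).eval t := by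
    intro i t
    have h2 : (aeval P (F i) : Polynomial ℂ).eval t
        = (Polynomial.aeval t : Polynomial ℂ →ₐ[ℂ] ℂ) (aeval P (F i)) := by
      rw [Polynomial.coe_aeval_eq_eval]
    rw [h2, comp_aeval_apply, ← aeval_eq_eval]
    rfl
  intro t i
  rw [h1]
  have h3 : (aeval P (F i) : Polynomial ℂ) = 0 := by
    apply Polynomial.eq_zero_of_infinite_isRoot
    refine Set.Infinite.mono ?_ (Set.finite_singleton (0 : ℂ)).infinite_compl
    intro t ht
    change (aeval P (F i) : Polynomial ℂ).eval t = 0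
    rw [← h1]
    exact (hG.mem t ht).1 i
  rw [h3, Polynomial.eval_zero]

theorem tendsto_add_nhdsNE (z a : ℂ) : Tendsto (fun w => w + a) (𝓝[≠] z) (𝓝[≠] (z + a)) :=
  ((hasDerivAt_id z).add_const a).tendsto_nhdsNE one_ne_zero

/-- A map of the punctured plane to a variety without rational curves which is algebraic over the
polynomials is constant. -/
theorem ratcurve {F : ι → MvPolynomial (Fin (N + 1)) ℂ} (hF : ∀ i, ∃ d, (F i).IsHomogeneous d)
    (hno : NoRat F) (h : ℂ → PS N) (hh : ∀ w, w ≠ 0 → HoloAt h w)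
    (hX : ∀ w, w ≠ 0 → OnX F (h w)) (k : Fin (N + 1))
    (hk : ∀ w, w ≠ 0 → ∀ᶠ z in 𝓝[≠] w, (h z).rep k ≠ 0)
    (halg : ∀ j, ∃ (m : ℕ) (c : ℕ → Polynomial ℂ), (∃ i ≤ m, c i ≠ 0) ∧
      ∀ w, w ≠ 0 → ∀ᶠ z in 𝓝[≠] w,
        ∑ i ∈ Finset.range (m + 1), (c i).eval z * ratio h j k z ^ i = 0) :
    ∀ z w, z ≠ 0 → w ≠ 0 → h z = h w := by
  classical
  choose m c hc hrel using halg
  choose p q hq hpq using fun j => rat_of_alg (ratio h j k) (fun w hw => (hh w hw).mero j k)
    (m j) (c j) (hc j) (hrel j)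
  let P' : Fin (N + 1) → Polynomial ℂ := fun j => p j * ∏ i ∈ Finset.univ.erase j, q i
  let Q : Polynomial ℂ := ∏ i, q i
  have hQ : Q ≠ 0 := Finset.prod_ne_zero_iff.mpr fun i _ => hq i
  have hQj : ∀ j, Q = q j * ∏ i ∈ Finset.univ.erase j, q i := fun j =>
    (Finset.mul_prod_erase _ _ (Finset.mem_univ j)).symm
  have hP' : ∀ w, w ≠ 0 → ∀ᶠ z in 𝓝[≠] w, Q.eval z ≠ 0 ∧ (h z).rep k ≠ 0 ∧
      ∀ j, (P' j).eval z = Q.eval z * ratio h j k z := by
    intro w hw
    have h1 : ∀ᶠ z in 𝓝[≠] w, Q.eval z ≠ 0 := by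
      have hfin : {z : ℂ | Q.IsRoot z}.Finite := Q.finite_setOfPred_isRoot hQ
      have h2 : ({z : ℂ | Q.IsRoot z} \ {w})ᶜ ∈ 𝓝 w :=
        (hfin.subset sdiff_subset).isClosed.isOpen_compl.mem_nhds (by simp)
      filter_upwards [mem_nhdsWithin_of_mem_nhds h2, self_mem_nhdsWithin] with z hz hzw h0
      exact hz ⟨h0, hzw⟩
    filter_upwards [h1, hk w hw, eventually_all.mpr fun j => hpq j w hw] with z hz1 hz2 hz3
    refine ⟨hz1, hz2, fun j => ?_⟩
    have h3 : Q.eval z = (q j).eval z * (∏ i ∈ Finset.univ.erase j, q i).eval z := by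
      rw [hQj j, Polynomial.eval_mul]
    rw [h3]
    simp only [P', Polynomial.eval_mul]
    rw [← hz3 j]
    ring
  have hkne : P' k ≠ 0 := by
    obtain ⟨z, hz1, hz2, hz3⟩ := (hP' 1 one_ne_zero).exists
    intro h0
    have h1 := hz3 k
    rw [h0, Polynomial.eval_zero, ratio, div_self hz2, mul_one] at h1
    exact hz1 h1.symm
  -- remove the common factor
  set I : Ideal (Polynomial ℂ) := Ideal.span (range P') with hI
  obtain ⟨D, hD⟩ : ∃ D, I = Ideal.span {D} := (IsPrincipalIdealRing.principal I).principal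
  have hDj : ∀ j, D ∣ P' j := by
    intro j
    rw [← Ideal.mem_span_singleton, ← hD]
    exact Ideal.subset_span ⟨j, rfl⟩
  choose P hP using hDj
  have hD0 : D ≠ 0 := by
    intro h0
    have := hP k
    rw [h0, zero_mul] at this
    exact hkne this
  obtain ⟨u, hu⟩ : ∃ u : Fin (N + 1) → Polynomial ℂ, ∑ j, u j * P j = 1 := by
    have h1 : D ∈ I := by rw [hD]; exact Ideal.mem_span_singleton_self D
    rw [hI, Ideal.mem_span_range_iff_exists_fun] at h1
    obtain ⟨u, hu⟩ := h1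
    refine ⟨u, mul_left_cancel₀ hD0 ?_⟩
    rw [mul_one]
    conv_rhs => rw [← hu]
    rw [Finset.mul_sum]
    refine Finset.sum_congr rfl fun j _ => ?_
    rw [hP j]
    ring
  have hPne : ∀ t, ∃ j, (P j).eval t ≠ 0 := by
    intro t
    by_contra hcon
    push Not at hcon
    have h1 := congrArg (Polynomial.eval t) hu
    rw [Polynomial.eval_finsetSum] at h1
    simp only [Polynomial.eval_mul, hcon, mul_zero, Finset.sum_const_zero, Polynomial.eval_one] at h1
    exact zero_ne_one h1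
  have hPne' : ∀ t, (fun j => (P j).eval t) ≠ 0 := by
    intro t h0
    obtain ⟨j, hj⟩ := hPne t
    exact hj (congrFun h0 j)
  let g : ℂ → PS N := fun z => Projectivization.mk ℂ (fun j => (P j).eval z) (hPne' z)
  have hPan : ∀ w, AnalyticAt ℂ (fun z => fun j => (P j).eval z) w := by
    intro w
    rw [analyticAt_pi_iff]
    intro j
    have := AnalyticAt.aeval_polynomial (A := ℂ) (analyticAt_id (𝕜 := ℂ) (z := w)) (P j)
    simpa using this
  have hg : ∀ w, HoloAt g w := by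
    intro w
    exact ⟨fun z => fun j => (P j).eval z, hPan w, Eventually.of_forall fun z => ⟨hPne' z, rfl⟩⟩
  have hhg : ∀ w, w ≠ 0 → h w = g w := by
    intro w hw
    apply (hh w hw).eq_of_eventually (hg w)
    filter_upwards [hP' w hw] with z hz
    obtain ⟨hz1, hz2, hz3⟩ := hz
    have h1 : (P' k).eval z = Q.eval z := by
      rw [hz3 k, ratio, div_self hz2, mul_one]
    have h2 : D.eval z * (P k).eval z = Q.eval z := by
      rw [← Polynomial.eval_mul, ← hP k, h1]
    have hPk : (P k).eval z ≠ 0 := by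
      intro h0
      rw [h0, mul_zero] at h2
      exact hz1 h2.symm
    have hDz : D.eval z ≠ 0 := by
      intro h0
      rw [h0, zero_mul] at h2
      exact hz1 h2.symm
    have h3 := fun j => ratio_mk (f := g) (z := z) (hPne' z) rfl j k
    refine eq_of_ratio (k := k) hz2 (fun h0 => hPk ((h3 k).2.mp h0)) fun j => ?_
    change ratio h j k z = ratio g j k z
    rw [(h3 j).1]
    have h4 : D.eval z * (P j).eval z = Q.eval z * ratio h j k z := by
      rw [← Polynomial.eval_mul, ← hP j, hz3 j]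
    rw [← h2] at h4
    have h5 : (P j).eval z = (P k).eval z * ratio h j k z := by
      apply mul_left_cancel₀ hDz
      linear_combination h4
    change ratio h j k z = (P j).eval z / (P k).eval z
    rw [h5]
    field_simp
  have hPF : ∀ t i, eval (fun j => (P j).eval t) (F i) = 0 := by
    intro t i
    have h1 : ∀ t, t ≠ 0 → eval (fun j => (P j).eval t) (F i) = 0 := by
      intro t ht
      have h2 := hX t ht
      rw [hhg t ht] at h2
      exact (onX_mk hF (hPne' t)).mp h2 i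
    have h2 : Continuous fun s => eval (fun j => (P j).eval s) (F i) :=
      (MvPolynomial.continuous_eval (F i)).comp (continuous_pi fun j => (P j).continuous)
    have h3 : (fun s => eval (fun j => (P j).eval s) (F i)) = fun _ => 0 :=
      h2.ext_on (dense_compl_singleton (0 : ℂ)) continuous_const (fun s hs => h1 s hs)
    exact congrFun h3 t
  intro z w hz hw
  rw [hhg z hz, hhg w hw]
  simp only [g]
  rw [mk_eq_mk_iff_minors]
  intro j l
  exact hno P hPne hPF z w j l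

/-- A meromorphic function which is algebraic over functions with period `ω` has a period
`n ω`. -/
theorem pigeon {Ω : Set ℂ} (hΩc : IsPreconnected Ω) {z0 : ℂ} (hz0 : z0 ∈ Ω)
    {ω : ℂ} (hinv : ∀ z ∈ Ω, z + ω ∈ Ω) (g : ℂ → ℂ) (hg : ∀ z, MeromorphicAt g z) (m : ℕ)
    (c : ℕ → ℂ → ℂ) (hc : ∀ i, AnalyticOnNhd ℂ (c i) Ω) (hper : ∀ i, ∀ z ∈ Ω, c i (z + ω) = c i z)
    (hΩ : IsOpen Ω) (hnz : ∃ i ≤ m, ∃ z ∈ Ω, c i z ≠ 0)
    (hrel : ∀ z ∈ Ω, ∀ᶠ w in 𝓝[≠] z, ∑ i ∈ Finset.range (m + 1), c i w * g w ^ i = 0) :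
    ∃ n : ℕ, 0 < n ∧ ∀ z, ∀ᶠ w in 𝓝[≠] z, g (w + n * ω) = g w := by
  by_contra hcon
  push Not at hcon
  have hne : ∀ n : ℕ, 0 < n → ∀ z, ∀ᶠ w in 𝓝[≠] z, g (w + n * ω) ≠ g w := by
    intro n hn z
    obtain ⟨x, hx⟩ := hcon n hn
    have hmer : MeromorphicOn (fun w => g (w + n * ω) - g w) univ := by
      intro y _
      have h1 : MeromorphicAt (fun w => g (w + n * ω)) y :=
        MeromorphicAt.comp_analyticAt (f := g) (g := fun w => w + n * ω) (hg _) (by fun_prop)
      exact h1.fun_sub (hg y)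
    have h2 : meromorphicOrderAt (fun w => g (w + n * ω) - g w) x ≠ ⊤ := by
      intro h3
      rw [meromorphicOrderAt_eq_top_iff] at h3
      have h4 : ∀ᶠ w in 𝓝[≠] x, g (w + n * ω) = g w := by
        filter_upwards [h3] with w hw
        exact sub_eq_zero.mp hw
      exact hx (h4.mono fun w hw h => h hw)
    have h3 := hmer.meromorphicOrderAt_ne_top_of_isPreconnected (y := z) isPreconnected_univ
      (mem_univ x) (mem_univ z) h2
    rw [meromorphicOrderAt_ne_top_iff_eventually_ne_zero (hmer z (mem_univ z))] at h3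
    filter_upwards [h3] with w hw
    exact sub_ne_zero.mp hw
  have hinv' : ∀ a : ℕ, ∀ z ∈ Ω, z + a * ω ∈ Ω := by
    intro a
    induction a with
    | zero => intro z hz; simpa using hz
    | succ a ih =>
      intro z hz
      have := hinv _ (ih z hz)
      push_cast
      rwa [add_mul, one_mul, ← add_assoc]
  have hper' : ∀ i, ∀ a : ℕ, ∀ z ∈ Ω, c i (z + a * ω) = c i z := by
    intro i a
    induction a with
    | zero => intro z _; simp
    | succ a ih =>
      intro z hz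
      have := hper i _ (hinv' a z hz)
      push_cast
      rw [add_mul, one_mul, ← add_assoc, this, ih z hz]
  obtain ⟨i0, hi0, x0, hx0, hnz⟩ := hnz
  -- the coefficient does not vanish near `z0`
  have hc0 : ∀ᶠ w in 𝓝[≠] z0, c i0 w ≠ 0 := by
    rcases (hc i0 z0 hz0).eventually_eq_zero_or_eventually_ne_zero with h | h
    · exact absurd ((hc i0).eqOn_zero_of_preconnected_of_eventuallyEq_zero hΩc hz0 h hx0) hnz
    · exact h
  have hrel' : ∀ a : ℕ, ∀ᶠ w in 𝓝[≠] z0,
      ∑ i ∈ Finset.range (m + 1), c i (w + a * ω) * g (w + a * ω) ^ i = 0 := fun a =>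
    (tendsto_add_nhdsNE z0 (a * ω)).eventually (hrel _ (hinv' a z0 hz0))
  have hdis : ∀ a b : ℕ, a < b → ∀ᶠ w in 𝓝[≠] z0, g (w + b * ω) ≠ g (w + a * ω) := by
    intro a b hab
    have h1 := (tendsto_add_nhdsNE z0 (a * ω)).eventually (hne (b - a) (by omega) (z0 + a * ω))
    filter_upwards [h1] with w hw
    have h2 : w + a * ω + ((b - a : ℕ) : ℂ) * ω = w + b * ω := by
      rw [Nat.cast_sub hab.le]
      ring
    rwa [h2] at hw
  have hall : ∀ᶠ w in 𝓝[≠] z0, w ∈ Ω ∧ c i0 w ≠ 0 ∧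
      (∀ a : Fin (m + 1), ∑ i ∈ Finset.range (m + 1), c i (w + (a : ℕ) * ω) * g (w + (a : ℕ) * ω) ^ i = 0) ∧
      (∀ a b : Fin (m + 1), a < b → g (w + (b : ℕ) * ω) ≠ g (w + (a : ℕ) * ω)) := by
    have h3 : ∀ᶠ w in 𝓝[≠] z0, ∀ a b : Fin (m + 1), a < b →
        g (w + (b : ℕ) * ω) ≠ g (w + (a : ℕ) * ω) := by
      rw [eventually_all]
      intro a
      rw [eventually_all]
      intro b
      by_cases hab : a < b
      · filter_upwards [hdis a b hab] with w hw _
        exact hw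
      · exact Eventually.of_forall fun w h => absurd h hab
    filter_upwards [mem_nhdsWithin_of_mem_nhds (hΩ.mem_nhds hz0), hc0,
      eventually_all.mpr fun a : Fin (m + 1) => hrel' a, h3] with w h4 h5 h6 h7
    exact ⟨h4, h5, h6, h7⟩
  obtain ⟨w, hwΩ, hw0, hwr, hwd⟩ := hall.exists
  let p : Polynomial ℂ := ∑ i ∈ Finset.range (m + 1), Polynomial.C (c i w) * Polynomial.X ^ i
  have hpc : p.coeff i0 = c i0 w := by
    simp only [p, Polynomial.finsetSum_coeff, Polynomial.coeff_C_mul, Polynomial.coeff_X_pow]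
    rw [Finset.sum_eq_single i0]
    · simp
    · intro i _ hi
      simp [Ne.symm hi]
    · intro h
      exact absurd (Finset.mem_range.mpr (Nat.lt_succ_of_le hi0)) h
  have hp0 : p = 0 := by
    apply Polynomial.eq_zero_of_natDegree_lt_card_of_eval_eq_zero p
      (f := fun a : Fin (m + 1) => g (w + (a : ℕ) * ω))
    · intro a b hab
      by_contra hne'
      rcases lt_or_gt_of_ne hne' with h | h
      · exact hwd a b h hab.symm
      · exact hwd b a h hab
    · intro a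
      have h1 := hwr a
      simp only [p, Polynomial.eval_finsetSum, Polynomial.eval_mul, Polynomial.eval_C,
        Polynomial.eval_pow, Polynomial.eval_X]
      rw [← h1]
      refine Finset.sum_congr rfl fun i _ => ?_
      rw [hper' i a w hwΩ]
    · rw [Fintype.card_fin]
      refine Nat.lt_succ_of_le ?_
      refine Polynomial.natDegree_sum_le_of_forall_le _ _ fun i hi => ?_
      refine (Polynomial.natDegree_C_mul_X_pow_le _ _).trans ?_
      exact Nat.lt_succ_iff.mp (Finset.mem_range.mp hi)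
  rw [hp0, Polynomial.coeff_zero] at hpc
  exact hw0 hpc.symm

/-- If all ratios of the coordinates of `f` have a period `n ω`, then so does `f`. -/
theorem holo_periodic {f : ℂ → PS N} (hf : Holo f) {k : Fin (N + 1)}
    (hk : ∀ z, ∀ᶠ w in 𝓝[≠] z, (f w).rep k ≠ 0) {ω : ℂ}
    (hper : ∀ j, ∃ n : ℕ, 0 < n ∧ ∀ z, ∀ᶠ w in 𝓝[≠] z, ratio f j k (w + n * ω) = ratio f j k w) :
    ∃ M : ℕ, 0 < M ∧ ∀ M', M ∣ M' → ∀ z, f (z + M' * ω) = f z := by
  choose n hn hper using hper
  have hmul : ∀ j (a : ℕ), ∀ z, ∀ᶠ w in 𝓝[≠] z,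
      ratio f j k (w + a * (n j * ω)) = ratio f j k w := by
    intro j a
    induction a with
    | zero => intro z; exact Eventually.of_forall fun w => by simp
    | succ a ih =>
      intro z
      have h1 := (tendsto_add_nhdsNE z (a * (n j * ω))).eventually (hper j (z + a * (n j * ω)))
      filter_upwards [h1, ih z] with w hw hw'
      rw [← hw', ← hw]
      congr 1
      push_cast
      ring
  refine ⟨∏ j, n j, Finset.prod_pos fun j _ => hn j, fun M' hM' z => ?_⟩
  have hg : HoloAt (fun w => f (w + M' * ω)) z := (hf _).comp (by fun_prop)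
  refine hg.eq_of_eventually (hf z) ?_
  have h1 : ∀ j, ∀ᶠ w in 𝓝[≠] z, ratio f j k (w + M' * ω) = ratio f j k w := by
    intro j
    obtain ⟨a, ha⟩ := (Finset.dvd_prod_of_mem n (Finset.mem_univ j)).trans hM'
    filter_upwards [hmul j a z] with w hw
    rw [← hw]
    congr 1
    rw [ha]
    push_cast
    ring
  filter_upwards [hk z, (tendsto_add_nhdsNE z (M' * ω)).eventually (hk (z + M' * ω)),
    eventually_all.mpr h1] with w h2 h3 h4
  exact eq_of_ratio h3 h2 h4

/-- Holonomic curves in a variety without rational curves are algebraic over the coefficients. -/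
theorem hol_alg {F : ι → MvPolynomial (Fin (N + 1)) ℂ} (hF : ∀ i, ∃ d, (F i).IsHomogeneous d)
    (hno : NoRat F) {f : ℂ → PS N} (hf : Holo f) (hfX : ∀ z, OnX F (f z)) {Ω : Set ℂ}
    {B : Subalgebra ℂ (ℂ → ℂ)} (hΩc : IsPreconnected Ω) (hB : DiffRing Ω B)
    {D : Set ℂ} (hDo : IsOpen D) {z1 : ℂ} (hz1 : z1 ∈ D) (hDΩ : D ⊆ Ω)
    {φ : ℂ → Fin (N + 1) → ℂ}
    (hφ : ∀ z ∈ D, AnalyticAt ℂ φ z ∧ ∃ h : φ z ≠ 0, f z = Projectivization.mk ℂ (φ z) h)
    (hlin : ∀ j, ∃ (m : ℕ) (a : ℕ → ℂ → ℂ), (∀ k, a k ∈ B) ∧ (∃ k ≤ m, ∃ z ∈ Ω, a k z ≠ 0) ∧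
      ∀ z ∈ D, ∑ k ∈ Finset.range (m + 1), a k z * iteratedDeriv k (fun w => φ w j) z = 0) :
    ∃ k, (∀ z, ∀ᶠ w in 𝓝[≠] z, (f w).rep k ≠ 0) ∧ ∀ j, ∃ (m : ℕ) (c : ℕ → ℂ → ℂ),
      (∀ i, c i ∈ B) ∧ (∃ i ≤ m, ∃ z ∈ Ω, c i z ≠ 0) ∧
      ∀ z ∈ Ω, ∀ᶠ w in 𝓝[≠] z, ∑ i ∈ Finset.range (m + 1), c i w * ratio f j k w ^ i = 0 := by
  obtain ⟨r, hr, hrD⟩ := Metric.isOpen_iff.mp hDo z1 hz1
  set S := Metric.ball z1 r with hS
  have hz1S : z1 ∈ S := Metric.mem_ball_self hr
  have hSo : IsOpen S := Metric.isOpen_ball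
  have hSc : IsPreconnected S := (convex_ball z1 r).isPreconnected
  have hSΩ : S ⊆ Ω := hrD.trans hDΩ
  have hBS : DiffRing S B := ⟨fun b hb => (hB.an b hb).mono hSΩ, fun b hb => by
    obtain ⟨b', hb', h⟩ := hB.der b hb
    exact ⟨b', hb', fun z hz => h z (hSΩ hz)⟩⟩
  obtain ⟨hφ1, hv1, hfv1⟩ := hφ z1 hz1
  obtain ⟨k, hk⟩ := Function.ne_iff.mp hv1
  have hφan : ∀ j, AnalyticOnNhd ℂ (fun w => φ w j) S := fun j z hz =>
    (analyticAt_pi_iff.mp (hφ z (hrD hz)).1) j
  have hrepk : (f z1).rep k ≠ 0 := fun h0 => hk ((ratio_mk hv1 hfv1 k k).2.mp h0)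
  refine ⟨k, hf.ne_zero hrepk, fun j => ?_⟩
  have hlinS : ∀ j, LinOver S B (fun w => φ w j) := by
    intro j
    obtain ⟨m, a, haB, ⟨i, him, x, hx, hix⟩, h⟩ := hlin j
    refine ⟨m, a, haB, ⟨i, him, ?_⟩, fun z hz => h z (hrD hz)⟩
    by_contra hcon
    push Not at hcon
    apply hix
    refine (hB.an _ (haB i)).eqOn_zero_of_preconnected_of_eventuallyEq_zero hΩc (hSΩ hz1S) ?_ hx
    filter_upwards [hSo.mem_nhds hz1S] with z hz
    exact hcon z hz
  have halg : AlgOver S B (fun w => φ w j) (fun w => φ w k) := by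
    by_contra hcon
    obtain ⟨z0, hz0, h⟩ := gen_local hSo hSc hBS φ hφan hlinS k j ⟨z1, hz1S, hk⟩ hcon
    obtain ⟨z, w, hw, hw1, ⟨t, ht, hnc⟩, hR⟩ := h.exists
    have hwk : w 1 ≠ 0 := by
      intro h0
      apply hnc
      rw [h0]
      simp
    obtain ⟨P, hP, hP1, -⟩ := gm_of_laur F hF 1 (isHomogeneous_one _ _) w hw hwk
      (fun i t ht => hR (F i) (fun x hx => by
        obtain ⟨-, hv, hfx⟩ := hφ x (hrD hx)
        have := hfX x
        rw [hfx] at this
        exact (onX_mk hF hv).mp this i) t ht)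
      (fun t _ => by rw [map_one]; exact one_ne_zero) ⟨t, ht, k, j, hnc⟩
    exact false_of_gm hno hP hP1
  obtain ⟨m, c, hcB, ⟨i, him, x, hx, hix⟩, hrel⟩ := halg
  refine ⟨m, c, hcB, ⟨i, him, x, hSΩ hx, hix⟩, ?_⟩
  have hmer : MeromorphicOn (fun w => ∑ i ∈ Finset.range (m + 1), c i w * ratio f j k w ^ i) Ω := by
    intro y hy
    apply MeromorphicAt.fun_sum
    intro i _
    exact (hB.an _ (hcB i) y hy).meromorphicAt.fun_mul (((hf y).mero j k).fun_pow i)
  have hz1top : meromorphicOrderAt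
      (fun w => ∑ i ∈ Finset.range (m + 1), c i w * ratio f j k w ^ i) z1 = ⊤ := by
    rw [meromorphicOrderAt_eq_top_iff]
    have h1 : ∀ᶠ w in 𝓝 z1, φ w k ≠ 0 := (hφan k z1 hz1S).continuousAt.eventually_ne hk
    filter_upwards [mem_nhdsWithin_of_mem_nhds h1, mem_nhdsWithin_of_mem_nhds (hSo.mem_nhds hz1S)]
      with w hwk hwS
    obtain ⟨-, hv, hfw⟩ := hφ w (hrD hwS)
    rw [(ratio_mk hv hfw j k).1]
    have h2 := hrel w hwS
    have h3 : (φ w k) ^ m * ∑ i ∈ Finset.range (m + 1), c i w * (φ w j / φ w k) ^ i = 0 := by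
      rw [← h2, Finset.mul_sum]
      refine Finset.sum_congr rfl fun i hi => ?_
      have h4 : i ≤ m := Nat.lt_succ_iff.mp (Finset.mem_range.mp hi)
      have h5 : φ w k ^ m = φ w k ^ (m - i) * φ w k ^ i := by
        rw [← pow_add, Nat.sub_add_cancel h4]
      rw [h5, div_pow]
      field_simp
    exact (mul_eq_zero.mp h3).resolve_left (pow_ne_zero m hwk)
  intro z hz
  by_contra hcon
  have h1 : meromorphicOrderAt
      (fun w => ∑ i ∈ Finset.range (m + 1), c i w * ratio f j k w ^ i) z ≠ ⊤ := by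
    rw [Ne, meromorphicOrderAt_eq_top_iff]
    exact hcon
  exact hmer.meromorphicOrderAt_ne_top_of_isPreconnected hΩc hz (hSΩ hz1S) h1 hz1top

end Pool.Agent.TH182.TC
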