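import Mathlib
import Pool.Agent.TH182.TC.Main

/-!
Curves which are holonomic over the polynomials, the exponential polynomials in one exponential,
and the doubly periodic functions.
-/

set_option autoImplicit false

namespace Pool.Agent.TH182.TC

open MvPolynomial Filter Topology Set
open scoped LinearAlgebra.Projectivization
open Pool.Agent.TH143 Pool.Agent.W603.BP

variable {N : ℕ} {ι : Type}

/-- On a nonempty open subset `D` of the domain `Ω`, the curve `f` has holomorphic homogeneous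
coordinates which satisfy nontrivial linear differential equations with coefficients in `B`. -/
def HolonomicOver (Ω : Set ℂ) (B : Set (ℂ → ℂ)) (f : ℂ → PS N) : Prop :=
  ∃ (D : Set ℂ) (φ : ℂ → Fin (N + 1) → ℂ), IsOpen D ∧ D.Nonempty ∧ D ⊆ Ω ∧
    (∀ z ∈ D, AnalyticAt ℂ φ z ∧ ∃ h : φ z ≠ 0, f z = Projectivization.mk ℂ (φ z) h) ∧
    ∀ j, ∃ (m : ℕ) (a : ℕ → ℂ → ℂ), (∀ k, a k ∈ B) ∧ (∃ k ≤ m, ∃ z ∈ Ω, a k z ≠ 0) ∧
      ∀ z ∈ D, ∑ k ∈ Finset.range (m + 1), a k z * iteratedDeriv k (fun w => φ w j) z = 0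

/-- polynomials in `z` -/
def PolFun : Set (ℂ → ℂ) := {a | ∃ p : Polynomial ℂ, ∀ z, a z = p.eval z}

/-- polynomials in `exp (c z)` -/
def ExpFun (c : ℂ) : Set (ℂ → ℂ) := {a | ∃ p : Polynomial ℂ, ∀ z, a z = p.eval (Complex.exp (c * z))}

/-- holomorphic functions on `Ω` with the periods `w1` and `w2` -/
def PerFun (w1 w2 : ℂ) (Ω : Set ℂ) : Set (ℂ → ℂ) :=
  {a | AnalyticOnNhd ℂ a Ω ∧ ∀ z ∈ Ω, a (z + w1) = a z ∧ a (z + w2) = a z}

/-- the algebra of polynomials -/
noncomputable def polB : Subalgebra ℂ (ℂ → ℂ) where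
  carrier := PolFun
  mul_mem' := by
    rintro a b ⟨p, hp⟩ ⟨q, hq⟩
    exact ⟨p * q, fun z => by rw [Pi.mul_apply, hp, hq, Polynomial.eval_mul]⟩
  add_mem' := by
    rintro a b ⟨p, hp⟩ ⟨q, hq⟩
    exact ⟨p + q, fun z => by rw [Pi.add_apply, hp, hq, Polynomial.eval_add]⟩
  algebraMap_mem' := fun r => ⟨Polynomial.C r, fun z => by rw [Polynomial.eval_C]; rfl⟩

/-- the algebra of polynomials in an exponential -/
noncomputable def expB (c : ℂ) : Subalgebra ℂ (ℂ → ℂ) where
  carrier := ExpFun c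
  mul_mem' := by
    rintro a b ⟨p, hp⟩ ⟨q, hq⟩
    exact ⟨p * q, fun z => by rw [Pi.mul_apply, hp, hq, Polynomial.eval_mul]⟩
  add_mem' := by
    rintro a b ⟨p, hp⟩ ⟨q, hq⟩
    exact ⟨p + q, fun z => by rw [Pi.add_apply, hp, hq, Polynomial.eval_add]⟩
  algebraMap_mem' := fun r => ⟨Polynomial.C r, fun z => by rw [Polynomial.eval_C]; rfl⟩

/-- the algebra of doubly periodic functions -/
noncomputable def perB (w1 w2 : ℂ) (Ω : Set ℂ) : Subalgebra ℂ (ℂ → ℂ) where
  carrier := PerFun w1 w2 Ω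
  mul_mem' := by
    rintro a b ⟨ha, ha'⟩ ⟨hb, hb'⟩
    refine ⟨ha.mul hb, fun z hz => ?_⟩
    simp only [Pi.mul_apply, (ha' z hz).1, (ha' z hz).2, (hb' z hz).1, (hb' z hz).2, and_self]
  add_mem' := by
    rintro a b ⟨ha, ha'⟩ ⟨hb, hb'⟩
    refine ⟨ha.add hb, fun z hz => ?_⟩
    simp only [Pi.add_apply, (ha' z hz).1, (ha' z hz).2, (hb' z hz).1, (hb' z hz).2, and_self]
  algebraMap_mem' := fun r => ⟨analyticOnNhd_const, fun z _ => ⟨rfl, rfl⟩⟩

theorem an_poly (p : Polynomial ℂ) (z : ℂ) : AnalyticAt ℂ (fun w => p.eval w) z := by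
  have := AnalyticAt.aeval_polynomial (A := ℂ) (analyticAt_id (𝕜 := ℂ) (z := z)) p
  simpa using this

theorem polB_diff : DiffRing univ polB := by
  constructor
  · rintro b ⟨p, hp⟩ z _
    have h1 : b = fun w => p.eval w := funext hp
    rw [h1]
    exact an_poly p z
  · rintro b ⟨p, hp⟩
    refine ⟨fun w => p.derivative.eval w, ⟨p.derivative, fun _ => rfl⟩, fun z _ => ?_⟩
    have h1 : b = fun w => p.eval w := funext hp
    rw [h1]
    exact p.hasDerivAt z

theorem expB_diff (c : ℂ) : DiffRing univ (expB c) := by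
  constructor
  · rintro b ⟨p, hp⟩ z _
    have h1 : b = fun w => p.eval (Complex.exp (c * w)) := funext hp
    rw [h1]
    have h2 : AnalyticAt ℂ (fun w => Complex.exp (c * w)) z := by fun_prop
    exact AnalyticAt.fun_comp (g := fun w => p.eval w) (an_poly p _) h2
  · rintro b ⟨p, hp⟩
    refine ⟨fun w => (p.derivative * (Polynomial.X * Polynomial.C c)).eval (Complex.exp (c * w)),
      ⟨_, fun _ => rfl⟩, fun z _ => ?_⟩
    have h1 : b = fun w => p.eval (Complex.exp (c * w)) := funext hp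
    rw [h1]
    have h2 : HasDerivAt (fun w => Complex.exp (c * w)) (Complex.exp (c * z) * c) z := by
      have h3 : HasDerivAt (fun w => c * w) c z := by
        simpa using (hasDerivAt_id z).const_mul c
      exact h3.cexp
    have h4 := (p.hasDerivAt (Complex.exp (c * z))).comp z h2
    refine h4.congr_deriv ?_
    simp only [Polynomial.eval_mul, Polynomial.eval_X, Polynomial.eval_C]

theorem perB_diff {w1 w2 : ℂ} {Ω : Set ℂ} (hΩ : IsOpen Ω) : DiffRing Ω (perB w1 w2 Ω) := by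
  constructor
  · rintro b ⟨hb, -⟩
    exact hb
  · rintro b ⟨hb, hb'⟩
    have hper : ∀ w, (∀ z ∈ Ω, b (z + w) = b z) → ∀ z ∈ Ω, deriv b (z + w) = deriv b z := by
      intro w hw z hz
      rw [← deriv_comp_add_const]
      apply Filter.EventuallyEq.deriv_eq
      filter_upwards [hΩ.mem_nhds hz] with x hx
      exact hw x hx
    refine ⟨deriv b, ⟨hb.deriv, fun z hz => ⟨hper w1 (fun z hz => (hb' z hz).1) z hz,
      hper w2 (fun z hz => (hb' z hz).2) z hz⟩⟩, fun z hz => (hb z hz).differentiableAt.hasDerivAt⟩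

/-- polynomial coefficients -/
theorem case_pol {F : ι → MvPolynomial (Fin (N + 1)) ℂ} (hF : ∀ i, ∃ d, (F i).IsHomogeneous d)
    (hX : EllipticRigid F) {f : ℂ → PS N} (hf : Holo f) (hfX : ∀ z, OnX F (f z))
    (h : HolonomicOver univ PolFun f) : ∀ z w, f z = f w := by
  have hno : NoRat F := no_rational hF hX
  obtain ⟨D, φ, hD, ⟨z1, hz1⟩, hDΩ, hφ, hlin⟩ := h
  obtain ⟨k, hk, halg⟩ := hol_alg hF hno hf hfX isPreconnected_univ polB_diff hD hz1 hDΩ hφ hlin
  have key := ratcurve hF hno f (fun w _ => hf w) (fun w _ => hfX w) k (fun w _ => hk w) (by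
    intro j
    obtain ⟨m, c, hc, ⟨i, him, x, -, hix⟩, hrel⟩ := halg j
    choose p hp using hc
    refine ⟨m, p, ⟨i, him, fun h0 => ?_⟩, fun w _ => ?_⟩
    · apply hix
      rw [hp i, h0, Polynomial.eval_zero]
    · filter_upwards [hrel w (mem_univ w)] with z hz
      rw [← hz]
      refine Finset.sum_congr rfl fun i _ => ?_
      rw [hp i])
  have h0 : f 0 = f 1 := by
    have hg : HoloAt (fun _ : ℂ => f 1) (0 : ℂ) := by
      obtain ⟨φ, hφ, hev⟩ := hf 1
      obtain ⟨h1, h2⟩ := hev.self_of_nhds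
      exact ⟨fun _ => φ 1, analyticAt_const, Eventually.of_forall fun _ => ⟨h1, h2⟩⟩
    refine (hf 0).eq_of_eventually hg ?_
    filter_upwards [self_mem_nhdsWithin] with z hz
    exact key z 1 hz one_ne_zero
  have hall : ∀ z, f z = f 1 := by
    intro z
    by_cases hz : z = 0
    · rw [hz]; exact h0
    · exact key z 1 hz one_ne_zero
  intro z w
  rw [hall z, hall w]

theorem int_mul_per {f : ℂ → PS N} {ω : ℂ} (h : ∀ z, f (z + ω) = f z) (n : ℤ) :
    ∀ z, f (z + n * ω) = f z := by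
  have hn : ∀ (n : ℕ) z, f (z + n * ω) = f z := by
    intro n
    induction n with
    | zero => intro z; simp
    | succ n ih =>
      intro z
      push_cast
      rw [add_mul, one_mul, ← add_assoc, h, ih]
  intro z
  obtain ⟨m, rfl | rfl⟩ := n.eq_nat_or_neg
  · exact_mod_cast hn m z
  · rw [← hn m (z + ((-(m : ℤ) : ℤ) : ℂ) * ω)]
    congr 1
    push_cast
    ring

/-- coefficients which are polynomials in an exponential -/
theorem case_exp {F : ι → MvPolynomial (Fin (N + 1)) ℂ} (hF : ∀ i, ∃ d, (F i).IsHomogeneous d)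
    (hX : EllipticRigid F) {f : ℂ → PS N} (hf : Holo f) (hfX : ∀ z, OnX F (f z)) {c : ℂ}
    (h : HolonomicOver univ (ExpFun c) f) : ∀ z w, f z = f w := by
  by_cases hc0 : c = 0
  · apply case_pol hF hX hf hfX
    obtain ⟨D, φ, hD, hDn, hDΩ, hφ, hlin⟩ := h
    refine ⟨D, φ, hD, hDn, hDΩ, hφ, fun j => ?_⟩
    obtain ⟨m, a, ha, h1, h2⟩ := hlin j
    refine ⟨m, a, fun k => ?_, h1, h2⟩
    obtain ⟨p, hp⟩ := ha k
    refine ⟨Polynomial.C (p.eval 1), fun z => ?_⟩
    rw [hp, hc0, zero_mul, Complex.exp_zero, Polynomial.eval_C]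
  have hno : NoRat F := no_rational hF hX
  obtain ⟨D, φ, hD, ⟨z1, hz1⟩, hDΩ, hφ, hlin⟩ := h
  obtain ⟨k, hk, halg⟩ := hol_alg hF hno hf hfX isPreconnected_univ (expB_diff c) hD hz1 hDΩ hφ hlin
  have h2pi : (2 * Real.pi * Complex.I : ℂ) ≠ 0 := Complex.two_pi_I_ne_zero
  set ω : ℂ := 2 * Real.pi * Complex.I / c with hω
  have hexp : ∀ z, Complex.exp (c * (z + ω)) = Complex.exp (c * z) := by
    intro z
    have h1 : c * (z + ω) = c * z + 2 * Real.pi * Complex.I := by
      rw [hω]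
      field_simp
    rw [h1, Complex.exp_periodic]
  obtain ⟨M, hM, hper⟩ := holo_periodic (ω := ω) hf hk (by
    intro j
    obtain ⟨m, a, ha, hnz, hrel⟩ := halg j
    refine pigeon isPreconnected_univ (mem_univ 0) (fun z _ => mem_univ _) (ratio f j k)
      (fun z => (hf z).mero j k) m a (fun i => (expB_diff c).an _ (ha i)) ?_ isOpen_univ hnz hrel
    intro i z _
    obtain ⟨p, hp⟩ := ha i
    rw [hp, hp, hexp])
  have hperM := hper M dvd_rfl
  set κ : ℂ := M / c with hκ
  have hM0 : (M : ℂ) ≠ 0 := Nat.cast_ne_zero.mpr hM.ne'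
  have hκ0 : κ ≠ 0 := div_ne_zero hM0 hc0
  have hlogs : ∀ u v : ℂ, Complex.exp u = Complex.exp v → f (κ * u) = f (κ * v) := by
    intro u v huv
    obtain ⟨n, hn⟩ := Complex.exp_eq_exp_iff_exists_int.mp huv
    have h1 : κ * u = κ * v + n * (M * ω) := by
      rw [hn, hκ, hω]
      field_simp
    rw [h1]
    exact int_mul_per hperM n _
  let g : ℂ → PS N := fun w => f (κ * Complex.log w)
  -- local branches
  have hloc : ∀ w0 : ℂ, w0 ≠ 0 → ∃ L : ℂ → ℂ, AnalyticAt ℂ L w0 ∧
      HasDerivAt (fun w => κ * L w) (κ * w0⁻¹) w0 ∧ L w0 = Complex.log w0 ∧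
      ∀ᶠ w in 𝓝 w0, Complex.exp (L w) = w ∧ g w = f (κ * L w) := by
    intro w0 hw0
    have h1 : AnalyticAt ℂ Complex.log (w0 / w0) := by
      rw [div_self hw0]
      exact analyticAt_clog (by simp)
    have h2 : AnalyticAt ℂ (fun w => Complex.log w0 + Complex.log (w / w0)) w0 := by
      refine analyticAt_const.fun_add ?_
      exact AnalyticAt.fun_comp (g := Complex.log) (f := fun w => w / w0) h1
        (analyticAt_id.div_const)
    refine ⟨fun w => Complex.log w0 + Complex.log (w / w0), h2, ?_, ?_, ?_⟩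
    · have h3 : HasDerivAt (fun w => w / w0) (1 / w0) w0 := (hasDerivAt_id w0).div_const w0
      have h4 : HasDerivAt Complex.log (w0 / w0)⁻¹ (w0 / w0) := by
        apply Complex.hasDerivAt_log
        rw [div_self hw0]
        simp
      have h5 := HasDerivAt.comp (h₂ := Complex.log) (h := fun w => w / w0) w0 h4 h3
      have h6 := (h5.const_add (Complex.log w0)).const_mul κ
      refine h6.congr_deriv ?_
      rw [div_self hw0, inv_one, one_mul, one_div]
    · simp [div_self hw0]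
    · filter_upwards [isOpen_ne.mem_nhds hw0] with w hw
      have hw' : w ≠ 0 := hw
      have h3 : Complex.exp (Complex.log w0 + Complex.log (w / w0)) = w := by
        rw [Complex.exp_add, Complex.exp_log hw0, Complex.exp_log (div_ne_zero hw' hw0)]
        field_simp
      refine ⟨h3, ?_⟩
      apply hlogs
      rw [h3, Complex.exp_log hw']
  have hg : ∀ w, w ≠ 0 → HoloAt g w := by
    intro w hw
    obtain ⟨L, hL, -, hLw, hev⟩ := hloc w hw
    have h1 : HoloAt (fun x => f (κ * L x)) w :=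
      HoloAt.comp (hf _) (analyticAt_const.fun_mul hL)
    refine h1.congr ?_
    filter_upwards [hev] with x hx
    exact hx.2.symm
  have hback : ∀ w, w ≠ 0 → ∀ P : PS N → ℂ → Prop,
      (∀ᶠ z in 𝓝[≠] (κ * Complex.log w), P (f z) z) →
      ∀ᶠ x in 𝓝[≠] w, ∃ z, Complex.exp (z / κ) = x ∧ f z = g x ∧ P (f z) z := by
    intro w hw P hP
    obtain ⟨L, hL, hLd, hLw, hev⟩ := hloc w hw
    have h1 : Tendsto (fun x => κ * L x) (𝓝[≠] w) (𝓝[≠] (κ * L w)) :=
      hLd.tendsto_nhdsNE (mul_ne_zero hκ0 (inv_ne_zero hw))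
    rw [hLw] at h1
    filter_upwards [h1.eventually hP, mem_nhdsWithin_of_mem_nhds hev] with x hx hx'
    refine ⟨κ * L x, ?_, hx'.2.symm, hx⟩
    rw [mul_div_cancel_left₀ _ hκ0]
    exact hx'.1
  have key := ratcurve hF hno g hg (fun w _ => hfX _) k (by
    intro w hw
    filter_upwards [hback w hw (fun p _ => p.rep k ≠ 0) (hk _)] with x hx
    obtain ⟨z, -, hz, hz'⟩ := hx
    rw [← hz]
    exact hz') (by
    intro j
    obtain ⟨m, a, ha, ⟨i, him, x, -, hix⟩, hrel⟩ := halg j
    choose p hp using ha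
    refine ⟨m, fun i => (p i).comp (Polynomial.X ^ M), ⟨i, him, fun h0 => ?_⟩, fun w hw => ?_⟩
    · apply hix
      have h1 : p i = 0 := by
        rcases Polynomial.comp_eq_zero_iff.mp h0 with h1 | ⟨-, h2⟩
        · exact h1
        · exfalso
          have := congrArg Polynomial.natDegree h2
          rw [Polynomial.natDegree_X_pow, Polynomial.natDegree_C] at this
          omega
      rw [hp i, h1, Polynomial.eval_zero]
    · filter_upwards [hback w hw (fun q z => ∑ i ∈ Finset.range (m + 1), a i z * (q.rep j / q.rep k) ^ i = 0)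
        (hrel _ (mem_univ _))] with x hx
      obtain ⟨z, hzx, hfg, hz⟩ := hx
      rw [← hz]
      refine Finset.sum_congr rfl fun i _ => ?_
      rw [hp i, ratio, ← hfg, Polynomial.eval_comp, Polynomial.eval_pow, Polynomial.eval_X, ← hzx,
        ← Complex.exp_nat_mul]
      congr 3
      rw [hκ]
      field_simp)
  have hall : ∀ z, f z = g 1 := by
    intro z
    have h1 : f z = g (Complex.exp (z / κ)) := by
      have h2 : z = κ * (z / κ) := by field_simp
      conv_lhs => rw [h2]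
      apply hlogs
      rw [Complex.exp_log (Complex.exp_ne_zero _)]
    rw [h1]
    exact key _ _ (Complex.exp_ne_zero _) one_ne_zero
  intro z w
  rw [hall z, hall w]

/-- doubly periodic coefficients -/
theorem case_per {F : ι → MvPolynomial (Fin (N + 1)) ℂ} (hF : ∀ i, ∃ d, (F i).IsHomogeneous d)
    (hX : EllipticRigid F) {f : ℂ → PS N} (hf : Holo f) (hfX : ∀ z, OnX F (f z)) {Ω : Set ℂ}
    (hΩ : IsOpen Ω) (hΩc : IsPreconnected Ω) {w1 w2 : ℂ} (hw : LinearIndependent ℝ ![w1, w2])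
    (hinv : ∀ z ∈ Ω, z + w1 ∈ Ω ∧ z + w2 ∈ Ω) (h : HolonomicOver Ω (PerFun w1 w2 Ω) f) :
    ∀ z w, f z = f w := by
  have hno : NoRat F := no_rational hF hX
  obtain ⟨D, φ, hD, ⟨z1, hz1⟩, hDΩ, hφ, hlin⟩ := h
  obtain ⟨k, hk, halg⟩ := hol_alg hF hno hf hfX hΩc (perB_diff hΩ) hD hz1 hDΩ hφ hlin
  have hper : ∀ w, (w = w1 ∨ w = w2) → ∃ M : ℕ, 0 < M ∧ ∀ M', M ∣ M' → ∀ z, f (z + M' * w) = f z := by
    intro w hww
    refine holo_periodic (ω := w) hf hk ?_
    intro j
    obtain ⟨m, a, ha, hnz, hrel⟩ := halg j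
    refine pigeon hΩc (hDΩ hz1) (fun z hz => ?_) (ratio f j k)
      (fun z => (hf z).mero j k) m a (fun i => (perB_diff hΩ).an _ (ha i)) ?_ hΩ hnz hrel
    · rcases hww with rfl | rfl
      · exact (hinv z hz).1
      · exact (hinv z hz).2
    · intro i z hz
      rcases hww with rfl | rfl
      · exact ((ha i).2 z hz).1
      · exact ((ha i).2 z hz).2
  obtain ⟨M1, hM1, hp1⟩ := hper w1 (Or.inl rfl)
  obtain ⟨M2, hM2, hp2⟩ := hper w2 (Or.inr rfl)
  have h1 := hp1 (M1 * M2) (dvd_mul_right _ _)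
  have h2 := hp2 (M1 * M2) (dvd_mul_left _ _)
  set M := M1 * M2 with hMdef
  have hM : (M : ℝ) ≠ 0 := Nat.cast_ne_zero.mpr (Nat.mul_pos hM1 hM2).ne'
  refine hX (M * w1) (M * w2) ?_ f hf hfX h1 h2
  rw [LinearIndependent.pair_iff] at hw ⊢
  intro s t hst
  have h3 : ((s * M) • w1 + (t * M) • w2 : ℂ) = 0 := by
    rw [← hst]
    simp only [Complex.real_smul]
    push_cast
    ring
  obtain ⟨h4, h5⟩ := hw _ _ h3
  exact ⟨(mul_eq_zero.mp h4).resolve_right hM, (mul_eq_zero.mp h5).resolve_right hM⟩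

/-- a map from an elliptic curve is holonomic over the doubly periodic functions -/
theorem elliptic_holonomic {f : ℂ → PS N} (hf : Holo f) {w1 w2 : ℂ}
    (h1 : ∀ z, f (z + w1) = f z) (h2 : ∀ z, f (z + w2) = f z) :
    ∃ Ω : Set ℂ, IsOpen Ω ∧ IsPreconnected Ω ∧ (∀ z ∈ Ω, z + w1 ∈ Ω ∧ z + w2 ∈ Ω) ∧
      HolonomicOver Ω (PerFun w1 w2 Ω) f := by
  obtain ⟨k, hk⟩ := Function.ne_iff.mp (f 0).rep_nonzero
  have hkk := hf.ne_zero hk
  set Ω : Set ℂ := {z | (f z).rep k ≠ 0} with hΩ
  have hrat : ∀ j, ∀ z ∈ Ω, AnalyticAt ℂ (ratio f j k) z ∧ ∀ᶠ w in 𝓝 z, w ∈ Ω := by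
    intro j z hz
    obtain ⟨φ, hφ, hev⟩ := hf z
    obtain ⟨hv, hfv⟩ := hev.self_of_nhds
    have hφk : φ z k ≠ 0 := fun h0 => hz ((ratio_mk hv hfv k k).2.mpr h0)
    rw [analyticAt_pi_iff] at hφ
    refine ⟨((hφ j).fun_div (hφ k) hφk).congr ?_, ?_⟩
    · filter_upwards [hev] with w hw
      obtain ⟨hv, hw⟩ := hw
      exact (ratio_mk hv hw j k).1.symm
    · filter_upwards [hev, (hφ k).continuousAt.eventually_ne hφk] with w hw hw'
      obtain ⟨hv, hw⟩ := hw
      exact fun h0 => hw' ((ratio_mk hv hw k k).2.mp h0)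
  have hΩo : IsOpen Ω := isOpen_iff_mem_nhds.mpr fun z hz => (hrat k z hz).2
  have hcount : (Ωᶜ).Countable := by
    have hcl : IsClosed Ωᶜ := hΩo.isClosed_compl
    have hdisc : DiscreteTopology (Ωᶜ : Set ℂ) := by
      rw [discreteTopology_subtype_iff]
      intro x _
      rw [Filter.inf_principal_eq_bot, compl_compl]
      exact hkk x
    exact IsLindelof.countable (HereditarilyLindelofSpace.isLindelof _) hdisc
  have hconn : IsPreconnected Ω := by
    have h3 := hcount.isConnected_compl_of_one_lt_rank (by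
      rw [Complex.rank_real_complex]
      norm_num)
    rw [compl_compl] at h3
    exact h3.isPreconnected
  have hinv : ∀ z ∈ Ω, z + w1 ∈ Ω ∧ z + w2 ∈ Ω := by
    intro z hz
    constructor
    · change (f (z + w1)).rep k ≠ 0
      rw [h1]
      exact hz
    · change (f (z + w2)).rep k ≠ 0
      rw [h2]
      exact hz
  refine ⟨Ω, hΩo, hconn, hinv, Ω, fun z => fun j => ratio f j k z, hΩo, ⟨0, hk⟩, Subset.rfl, ?_, ?_⟩
  · intro z hz
    refine ⟨analyticAt_pi_iff.mpr fun j => (hrat j z hz).1, ?_⟩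
    have hz' : (f z).rep k ≠ 0 := hz
    have hne : (fun j => ratio f j k z) ≠ 0 := by
      intro h0
      have := congrFun h0 k
      simp only [ratio, Pi.zero_apply, div_self hz'] at this
      exact one_ne_zero this
    refine ⟨hne, ?_⟩
    conv_lhs => rw [← (f z).mk_rep]
    rw [mk_eq_mk_iff_minors]
    intro j l
    simp only [ratio]
    ring
  · intro j
    have hper : ∀ z ∈ Ω, ratio f j k (z + w1) = ratio f j k z ∧
        ratio f j k (z + w2) = ratio f j k z := by
      intro z _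
      simp only [ratio, h1, h2, and_self]
    have hmem : ratio f j k ∈ perB w1 w2 Ω := ⟨fun z hz => (hrat j z hz).1, hper⟩
    by_cases hz : ∃ z ∈ Ω, ratio f j k z ≠ 0
    · obtain ⟨b', hb', hder⟩ := (perB_diff hΩo).der _ hmem
      refine ⟨1, fun i => if i = 0 then - b' else ratio f j k, fun i => ?_, ⟨1, le_rfl, ?_⟩, ?_⟩
      · by_cases hi : i = 0
        · simp only [hi, if_true]
          exact (perB w1 w2 Ω).neg_mem hb'
        · simp only [hi, if_false]
          exact hmem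
      · obtain ⟨z, hz, hz'⟩ := hz
        exact ⟨z, hz, by simpa using hz'⟩
      · intro z hz
        have h3 : deriv (fun w => ratio f j k w) z = b' z := (hder z hz).deriv
        rw [Finset.sum_range_succ, Finset.sum_range_one]
        simp only [iteratedDeriv_zero, iteratedDeriv_one, if_true, one_ne_zero, if_false,
          Pi.neg_apply]
        rw [h3]
        ring
    · push Not at hz
      refine ⟨0, fun _ => 1, fun _ => (perB w1 w2 Ω).one_mem, ⟨0, le_rfl, 0, hk, ?_⟩, ?_⟩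
      · simp
      · intro z hz'
        rw [Finset.sum_range_one, iteratedDeriv_zero]
        change (1 : ℂ) * ratio f j k z = 0
        rw [hz z hz', mul_zero]

end Pool.Agent.TH182.TC
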